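import Mathlib
import Pool.Agent.Lib.MP_24331d_lc.Base
import Pool.Agent.Lib.MP_24331d_lc.RepDef
import Pool.Agent.Lib.MP_24331d_lc.KLevel

/-! # The Lyndon algebra `L(6,0)` is not weakly representable

The elements of `L(m,0)` are the sets of atoms; the atoms are the identity `1'` (written `none`) and
`a_0, ..., a_m` (written `some i`).  Boolean operations are those of sets, every element is its own
converse, and composition is given on atoms by `atomComp` and extended additively (`mul`). -/

namespace Pool.Agent.Results.MP_24331d_lc.NotWeaklyRepresentable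

universe u

/-- The atoms of `L(m,0)`: `none` is the identity `1'`, `some i` is `a_i`, `i = 0, ..., m`. -/
abbrev Atom (m : ℕ) := Option (Fin (m + 1))

/-- Composition of atoms: `1' ; y = y`, `x ; 1' = x`, `a_i ; a_i = 1' + a_i`, and for `i ≠ j`
`a_i ; a_j` is the sum of all `a_k` with `k ≠ i, j`. -/
def atomComp {m : ℕ} : Atom m → Atom m → Set (Atom m)
  | none, y => {y}
  | some i, none => {some i}
  | some i, some j =>
      if i = j then {none, some i} else {z | z ≠ none ∧ z ≠ some i ∧ z ≠ some j}

/-- Composition in `L(m,0)`: the additive extension of `atomComp`. -/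
def mul {m : ℕ} (x y : Set (Atom m)) : Set (Atom m) := {z | ∃ a ∈ x, ∃ b ∈ y, z ∈ atomComp a b}

/-- Converse in `L(m,0)` is the identity map (the algebra is symmetric). -/
def conv {m : ℕ} (x : Set (Atom m)) : Set (Atom m) := x

/-- `θ` is a weak representation of `L(m,0)` over the set `D`. -/
structure IsWeakRepresentation (m : ℕ) (D : Type u) (θ : Set (Atom m) → Set (D × D)) : Prop where
  injective : Function.Injective θ
  map_zero : θ ∅ = ∅
  map_one : θ Set.univ = Set.univ
  map_meet : ∀ x y, θ (x ∩ y) = θ x ∩ θ y
  map_id : θ {none} = {p | p.1 = p.2}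
  map_conv : ∀ x, θ (conv x) = {p | (p.2, p.1) ∈ θ x}
  map_mul : ∀ x y, θ (mul x y) = {p | ∃ w, (p.1, w) ∈ θ x ∧ (w, p.2) ∈ θ y}

theorem cyc_iff {m : ℕ} (x y z : Atom m) : MP24331d.cyc x y z ↔ z ∈ atomComp x y := by
  rcases x with _ | i
  · simp [MP24331d.cyc, atomComp]
  · rcases y with _ | j
    · simp [MP24331d.cyc, atomComp]
    · by_cases hij : i = j
      · rcases z with _ | k <;> simp [MP24331d.cyc, atomComp, hij]
      · rcases z with _ | k <;> simp [MP24331d.cyc, atomComp, hij]

theorem comp_eq {m : ℕ} (x y : Set (Atom m)) : MP24331d.comp x y = mul x y := by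
  ext z
  simp only [MP24331d.comp, mul, Set.mem_setOf_eq, cyc_iff]

/-- `L(6,0)` has no weak representation over any set. -/
theorem result (D : Type u) (θ : Set (Atom 6) → Set (D × D)) :
    ¬ IsWeakRepresentation 6 D θ := by
  intro h
  have h' : MP24331d.IsWeakRep 6 θ :=
    { inj := h.injective
      zero := h.map_zero
      one := h.map_one
      inter := h.map_meet
      id := h.map_id
      conv := h.map_conv
      comp := fun x y => by rw [comp_eq]; exact h.map_mul x y }
  obtain ⟨W, hW⟩ := MP24331d.exists_WRep θ h'
  exact W.no_WRep_six hW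

end Pool.Agent.Results.MP_24331d_lc.NotWeaklyRepresentable
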